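import Pool.Agent.Helper644_ST.CycLaw2

/-!
# The Sato-Tate law over the subfields of a Galois extension

Let `M / K` be a finite Galois extension with group `Γ`.  For `g ∈ Γ` let `M ^ g` be the fixed field; the
extensions of `M ^ g` in `M` are the fields `E` between `K` and `M` with `M / E` cyclic, for all `g`.

* The discrepancy over `K` of a class function with values between `0` and `1` is, in the limit, at most
  the proportion of the `g ∈ Γ` such that the law fails over some field between `M ^ g` and `M`.
  For other subfields `F` of `M` the `g` are counted with the number of the embeddings of `F` in `M`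
  fixed by `g`.
* In particular: if the law holds over the fields `E` between `K` and `M` with `M / E` cyclic, then it
  holds over `K` and over all fields between `K` and `M`.  If it holds over the fields `E` with `M / E`
  cyclic of order at most `m`, then the discrepancy over `K` is at most the proportion of the elements
  of order greater than `m`.
-/

set_option autoImplicit false

namespace Pool.Agent.Results.MP_c481b3_nt.CyclicReduction

open NumberField Filter MeasureTheory Pool.Agent.Helper644_ST

theorem result (K : Type) [Field K] [NumberField K] (G : Type) [Group G] [TopologicalSpace G]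
    [IsTopologicalGroup G] [CompactSpace G] [MeasurableSpace G] [BorelSpace G] (μ : Measure G)
    [IsProbabilityMeasure μ] [μ.IsHaarMeasure] (D : Datum K G) (M : Type) [Field M]
    [NumberField M] [Algebra K M] [IsGalois K M] :
    (∀ (F : Type) [Field F] [NumberField F] [Algebra K F], Nonempty (F →ₐ[K] M) →
      ∀ f : G → ℝ, IsTest f → ∀ η : ℝ, 0 < η →
        ∀ᶠ N in atTop, |D.disc F μ f N| ≤ D.failure μ M F + η) ∧
    D.failure μ M K =
      (Nat.card {g : M ≃ₐ[K] M // ¬ D.HoldsAt μ M g} : ℝ) / Nat.card (M ≃ₐ[K] M) ∧
    ((∀ E : IntermediateField K M, IsCyclic E.fixingSubgroup → D.SatoTateOver E μ) →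
      D.SatoTate μ ∧ ∀ E : IntermediateField K M, D.SatoTateOver E μ) :=
  ⟨fun F _ _ _ ⟨j⟩ _ hf _ hη => disc_le_failure μ D M F j hf hη, failure_self μ D M,
    cyclic_law μ D M⟩

end Pool.Agent.Results.MP_c481b3_nt.CyclicReduction
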