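import Pool.Agent.Helper644_ST.Rad

/-!
# Descent of the Sato-Tate law from radical extensions

`d (F)` is the proportion of the derangements in the Galois group of the normal closure of `F / K`,
acting on the embeddings of `F`.  For the extensions `F = K(α)`, `α ^ p ∈ K`, of prime degree `p` it is
at most `1 / [K(ζ_p) : K]`, and at most `[K : ℚ] / (p - 1)`.  The law over `K` follows from the law over
such extensions for infinitely many `p`; more generally, for extensions `F_n` with `d (F_n) → 0`, the law
over `K` holds if and only if the discrepancies over the `F_n` tend to `0`.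
-/

set_option autoImplicit false

namespace Pool.Agent.Results.MP_c481b3_nt.FewDerangements

open NumberField Filter MeasureTheory Topology IntermediateField Pool.Agent.Helper644_ST

theorem result (K : Type) [Field K] [NumberField K] (G : Type) [Group G] [TopologicalSpace G]
    [IsTopologicalGroup G] [CompactSpace G] [MeasurableSpace G] [BorelSpace G] (μ : Measure G)
    [IsProbabilityMeasure μ] [μ.IsHaarMeasure] (D : Datum K G) :
    (∀ (F : Type) [Field F] [NumberField F] [Algebra K F] (p : ℕ), IsRadicalOfDegree K F p →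
      (∀ ζ : AlgebraicClosure K, IsPrimitiveRoot ζ p →
        derangements K F ≤ 1 / Module.finrank K K⟮ζ⟯) ∧
      derangements K F * (p - 1) ≤ Module.finrank ℚ K) ∧
    (∀ (F : ℕ → Type) [∀ n, Field (F n)] [∀ n, NumberField (F n)] [∀ n, Algebra K (F n)],
      Tendsto (fun n => derangements K (F n)) atTop (𝓝 0) →
      (D.SatoTate μ ↔ ∀ f, IsTest f → ∀ η : ℝ, 0 < η → ∀ᶠ n in atTop, ∀ᶠ N in atTop,
        |D.disc (F n) μ f N| ≤ η)) ∧
    ((∀ n : ℕ, ∃ p : ℕ, n < p ∧ ∃ (F : Type) (_ : Field F) (_ : NumberField F)
      (_ : Algebra K F), IsRadicalOfDegree K F p ∧ D.SatoTateOver F μ) → D.SatoTate μ) :=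
  ⟨fun _ _ _ _ _ h => ⟨fun _ hζ => drg_rad h hζ, drg_rad' h⟩,
    fun F _ _ _ h => seq_iff μ D F h, rad_law μ D⟩

end Pool.Agent.Results.MP_c481b3_nt.FewDerangements
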