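import Pool.Agent.Hp428.ST.TupL

/-!
# The Sato-Tate law for products of abelian varieties from the law for pairs

`K` is a number field, `G i` the Sato-Tate group of an abelian variety `A_i / K` and `x v i ∈ G i` an
element of the class of the prime `v` (any element at the finitely many exceptional primes; this changes the
`L`-functions below by finitely many factors without zeros and poles in `Re s > 0`).  The assumption is
that any two of the sequences are jointly equidistributed, that is, the law for `A_i × A_j` with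
Sato-Tate group `G i × G j`.  It is known for instance for non-CM elliptic curves, pairwise not isogenous over
an algebraic closure, over a totally real field (Harris; Barnet-Lamb, Geraghty, Harris, Taylor), with
`G i = SU(2)`.  The theorem is about the products of three and more of the `A_i`.
-/

set_option autoImplicit false

namespace Pool.Agent.Results.MP_c481b3_nt.ProductsFromPairs

open NumberField IsDedekindDomain Filter Topology MeasureTheory

section

variable {K : Type} [Field K] [NumberField K]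

/-- The average of `φ` over the primes of `K` of norm at most `N`. -/
noncomputable def avg {E : Type} [AddCommGroup E] [Module ℝ E]
    (φ : HeightOneSpectrum (𝓞 K) → E) (N : ℕ) : E :=
  (Nat.card {v : HeightOneSpectrum (𝓞 K) // Ideal.absNorm v.asIdeal ≤ N} : ℝ)⁻¹ •
    ∑ᶠ v : {v : HeightOneSpectrum (𝓞 K) // Ideal.absNorm v.asIdeal ≤ N}, φ v.1

/-- The classes of the `y v` are equidistributed for `μ`. -/
def Equidistributed {H : Type} [Group H] [TopologicalSpace H] [MeasurableSpace H]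
    (y : HeightOneSpectrum (𝓞 K) → H) (μ : Measure H) : Prop :=
  ∀ f : H → ℂ, Continuous f → (∀ g h, f (h * g * h⁻¹) = f g) →
    Tendsto (avg fun v => f (y v)) atTop (𝓝 (∫ g, f g ∂μ))

variable {ι : Type} {G : ι → Type} [∀ i, Group (G i)] [∀ i, TopologicalSpace (G i)]

/-- The classes of the `(x v i)_{i ∈ S}` are equidistributed in the product of the `G i`, `i ∈ S`. -/
def Joint [∀ i, MeasurableSpace (G i)] (x : HeightOneSpectrum (𝓞 K) → ∀ i, G i)
    (μ : ∀ i, Measure (G i)) (S : Finset ι) : Prop :=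
  Equidistributed (fun v (i : S) => x v i) (Measure.pi fun i : S => μ i)

/-- The character of `π`. -/
noncomputable def tr {H : Type} [Group H] {n : ℕ} (π : H →* Matrix.unitaryGroup (Fin n) ℂ)
    (g : H) : ℂ := (π g : Matrix (Fin n) (Fin n) ℂ).trace

/-- The unitary representation `π` is continuous and irreducible (only the scalars commute with all
matrices `π g`). -/
structure IsIrreducible {H : Type} [Group H] [TopologicalSpace H] {n : ℕ}
    (π : H →* Matrix.unitaryGroup (Fin n) ℂ) : Prop where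
  continuous : Continuous π
  schur : ∀ A : Matrix (Fin n) (Fin n) ℂ, (∀ g, (π g : Matrix (Fin n) (Fin n) ℂ) * A = A * π g) →
    ∃ c : ℂ, A = c • (1 : Matrix (Fin n) (Fin n) ℂ)
  dim : n ≠ 0

variable {d : ι → ℕ}

/-- The tensor product of the matrices `π i (g i)` for `i ∈ S`. -/
noncomputable def tensor (π : ∀ i, G i →* Matrix.unitaryGroup (Fin (d i)) ℂ) (S : Finset ι)
    (g : ∀ i, G i) : Matrix (∀ i : S, Fin (d i)) (∀ i : S, Fin (d i)) ℂ :=
  Matrix.of fun a b => ∏ i : S, (π i (g i) : Matrix (Fin (d i)) (Fin (d i)) ℂ) (a i) (b i)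

variable [DecidableEq ι]

/-- The Euler product `L(s) = ∏_v det(1 - N(v)^{-s} ⊗_{i ∈ S} π i (x v i))⁻¹`. -/
noncomputable def LFun (π : ∀ i, G i →* Matrix.unitaryGroup (Fin (d i)) ℂ) (S : Finset ι)
    (x : HeightOneSpectrum (𝓞 K) → ∀ i, G i) (s : ℂ) : ℂ :=
  ∏' v : HeightOneSpectrum (𝓞 K),
    (Matrix.det (1 - ((Ideal.absNorm v.asIdeal : ℂ) ^ (-s)) • tensor π S (x v)))⁻¹

/-- `Λ` is a meromorphic continuation of `L` to a neighbourhood of `1 + iτ`. -/
def IsContinuation (π : ∀ i, G i →* Matrix.unitaryGroup (Fin (d i)) ℂ) (S : Finset ι)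
    (x : HeightOneSpectrum (𝓞 K) → ∀ i, G i) (τ : ℝ) (Λ : ℂ → ℂ) : Prop :=
  MeromorphicAt Λ (1 + τ * Complex.I) ∧
    ∀ᶠ s in 𝓝 ((1 : ℂ) + τ * Complex.I), (1 : ℝ) < s.re → Λ s = LFun π S x s

/-- The upper limit of the averages of `∏_{i ∈ S} |tr (π i) (x v i)|` is at most `κ`, and, for all real
`τ`, the upper limit of `|log |L(1 + iτ + ε)|| / log (1/ε)` for `ε → 0+` is at most `κ`. -/
def Bounded (π : ∀ i, G i →* Matrix.unitaryGroup (Fin (d i)) ℂ) (S : Finset ι)
    (x : HeightOneSpectrum (𝓞 K) → ∀ i, G i) (κ : ℝ) : Prop :=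
  (∀ η : ℝ, 0 < η → ∀ᶠ N : ℕ in atTop, avg (fun v => ∏ i ∈ S, ‖tr (π i) (x v i)‖) N ≤ κ + η) ∧
  ∀ τ η : ℝ, 0 < η → ∀ᶠ ε : ℝ in 𝓝[>] 0, LFun π S x (1 + τ * Complex.I + ε) ≠ 0 ∧
    |Real.log ‖LFun π S x (1 + τ * Complex.I + ε)‖ / Real.log (1 / ε)| ≤ κ + η

end

section Bridge

set_option linter.unusedSectionVars false

open Pool.Agent.TH553.ST Pool.Agent.TH553.RS Pool.Agent.W540.BE Pool.Agent.Hp428.ST

variable {K : Type} [Field K] [NumberField K]

theorem avg_eq {E : Type} [AddCommGroup E] [Module ℝ E] (g : HeightOneSpectrum (𝓞 K) → E) :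
    avg g = mn g := by
  funext N
  have hs : ∀ v, v ∈ upto K N ↔ Ideal.absNorm v.asIdeal ≤ N := fun v => mem_upto
  let e : {v : HeightOneSpectrum (𝓞 K) // Ideal.absNorm v.asIdeal ≤ N} ≃ (upto K N) :=
    Equiv.subtypeEquivRight fun v => (hs v).symm
  have hfin : Finite {v : HeightOneSpectrum (𝓞 K) // Ideal.absNorm v.asIdeal ≤ N} :=
    Finite.of_equiv _ e.symm
  unfold avg mn
  have h1 : (∑ᶠ v : {v : HeightOneSpectrum (𝓞 K) // Ideal.absNorm v.asIdeal ≤ N}, g v.1) =
      ∑ v ∈ upto K N, g v := by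
    rw [← Finset.sum_coe_sort, ← finsum_eq_sum_of_fintype, ← finsum_comp_equiv e]
    rfl
  have h2 : Nat.card {v : HeightOneSpectrum (𝓞 K) // Ideal.absNorm v.asIdeal ≤ N} =
      (upto K N).card := by
    rw [Nat.card_congr e, Nat.card_eq_fintype_card, Fintype.card_coe]
  rw [h1, h2]

theorem eq_iff {H : Type} [Group H] [TopologicalSpace H] [MeasurableSpace H]
    {y : HeightOneSpectrum (𝓞 K) → H} {μ : Measure H} : Equidistributed y μ ↔ EqD y μ := by
  unfold Equidistributed EqD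
  simp only [avg_eq]

variable {ι : Type} [DecidableEq ι] {G : ι → Type} [∀ i, Group (G i)]
  [∀ i, TopologicalSpace (G i)] [∀ i, IsTopologicalGroup (G i)] [∀ i, CompactSpace (G i)]
  [∀ i, T2Space (G i)] [∀ i, SecondCountableTopology (G i)]
  [∀ i, MeasurableSpace (G i)] [∀ i, BorelSpace (G i)]
  {x : HeightOneSpectrum (𝓞 K) → ∀ i, G i} {μ : ∀ i, Measure (G i)}
  [∀ i, IsProbabilityMeasure (μ i)] [∀ i, (μ i).IsHaarMeasure]

theorem joint_iff {S : Finset ι} : Joint x μ S ↔ Jt x μ S := eq_iff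

variable {d : ι → ℕ} {π : ∀ i, G i →* Matrix.unitaryGroup (Fin (d i)) ℂ}

theorem bounded_of {S : Finset ι} (hc : ∀ i, Continuous (π i)) {κ : ℝ}
    (h1 : ∀ U : Ultrafilter ℕ, (U : Filter ℕ) ≤ atTop →
      (MN U fun v => ∏ i ∈ S, ‖chi (π i) (x v i)‖) ≤ κ)
    (h2 : ∀ U : Ultrafilter ℝ, (U : Filter ℝ) ≤ 𝓝[>] 0 →
      (M (nm K) U fun v => ∏ i ∈ S, ‖chi (π i) (x v i)‖) ≤ κ) : Bounded π S x κ := by
  refine ⟨fun η hη => ?_, fun τ η hη => ?_⟩
  · rw [avg_eq]
    refine ev_le (fun U hU => ⟨_, MN_lim (bd_prod (fun i => cont_n (hc i)) S), h1 U hU⟩) hη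
  · filter_upwards [(size_T (π := π) S x τ).1, edge_le hc h2 τ hη] with ε h3 h4
    exact ⟨h3, h4⟩

theorem bounded_three (h : ∀ S : Finset ι, S.card ≤ 2 → TL x μ S)
    (hπ : ∀ i, IsIrreducible (π i)) {i j k : ι} (hij : i ≠ j) (hik : i ≠ k) (hjk : j ≠ k) :
    Bounded π {i, j, k} x
      (Real.sqrt (1 - (∫ g, |‖tr (π i) g‖ ^ 2 - 1| ∂μ i) ^ 2 / 4)) := by
  have hS : (({i, j, k} : Finset ι).erase k).card ≤ 2 := by
    have h1 : ({i, j, k} : Finset ι).card ≤ 3 := Finset.card_le_three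
    have h2 : k ∈ ({i, j, k} : Finset ι) := by simp
    rw [Finset.card_erase_of_mem h2]
    omega
  have h1 := h _ hS
  have h2 := h {i, k} Finset.card_le_two
  have hc := fun i => (hπ i).continuous
  exact bounded_of hc
    (fun U hU => kappa_gen hc (fun i => (hπ i).schur) (fun i => (hπ i).dim) (by simp) (by simp)
      hik (isM_MN hU) (h1.pl_MN hU) (h2.pl_MN hU))
    (fun U hU => kappa_gen hc (fun i => (hπ i).schur) (fun i => (hπ i).dim) (by simp) (by simp)
      hik (isM_M hU) (h1.pl_M hU) (h2.pl_M hU))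

theorem prod_four {β : Type} [CommMonoid β] (f : ι → β) {i j k l : ι} (hij : i ≠ j) (hik : i ≠ k)
    (hil : i ≠ l) (hjk : j ≠ k) (hjl : j ≠ l) (hkl : k ≠ l) :
    ∏ a ∈ ({i, j, k, l} : Finset ι), f a = (f i * f j) * (f k * f l) := by
  rw [Finset.prod_insert (by simp [hij, hik, hil]), Finset.prod_insert (by simp [hjk, hjl]),
    Finset.prod_pair hkl, mul_assoc]

theorem kappa_four (hc : ∀ i, Continuous (π i)) (hs : ∀ i, Schur (π i)) (hd : ∀ i, d i ≠ 0)
    {m : (HeightOneSpectrum (𝓞 K) → ℝ) → ℝ} (hm : IsM m)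
    {i j k l : ι} (hij : i ≠ j) (hik : i ≠ k)
    (hil : i ≠ l) (hjk : j ≠ k) (hjl : j ≠ l) (hkl : k ≠ l)
    (h : ∀ S : Finset ι, S.card ≤ 2 → PLw m x μ S) :
    (m fun v => ∏ a ∈ ({i, j, k, l} : Finset ι), ‖chi (π a) (x v a)‖) ≤
      Real.sqrt (1 - (∫ g, max (‖chi (π i) g‖ ^ 2 - Real.sqrt
        ((∫ g, ‖chi (π k) g‖ ^ 4 ∂μ k) * ∫ g, ‖chi (π l) g‖ ^ 4 ∂μ l)) 0 ∂μ i) ^ 2 / 4) := by
  have e : (fun v => ∏ a ∈ ({i, j, k, l} : Finset ι), ‖chi (π a) (x v a)‖) =
      fun v => (‖chi (π i) (x v i)‖ * ‖chi (π j) (x v j)‖) *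
        (‖chi (π k) (x v k)‖ * ‖chi (π l) (x v l)‖) := by
    funext v
    exact prod_four (fun a => ‖chi (π a) (x v a)‖) hij hik hil hjk hjl hkl
  rw [e]
  have h3 := bound_four hm hc hs hd hij hik hil hkl (h _ Finset.card_le_two)
    (h _ Finset.card_le_two) (h _ Finset.card_le_two) (h _ Finset.card_le_two)
  refine Real.le_sqrt_of_sq_le ?_
  linarith

theorem bounded_four (h : ∀ S : Finset ι, S.card ≤ 2 → TL x μ S)
    (hπ : ∀ i, IsIrreducible (π i)) {i j k l : ι} (hij : i ≠ j) (hik : i ≠ k)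
    (hil : i ≠ l) (hjk : j ≠ k) (hjl : j ≠ l) (hkl : k ≠ l) :
    Bounded π {i, j, k, l} x
      (Real.sqrt (1 - (∫ g, max (‖tr (π i) g‖ ^ 2 - Real.sqrt
        ((∫ g, ‖tr (π k) g‖ ^ 4 ∂μ k) * ∫ g, ‖tr (π l) g‖ ^ 4 ∂μ l)) 0 ∂μ i) ^ 2 / 4)) :=
  bounded_of (fun i => (hπ i).continuous)
    (fun U hU => kappa_four (fun i => (hπ i).continuous) (fun i => (hπ i).schur)
      (fun i => (hπ i).dim) (isM_MN hU) hij hik hil hjk hjl hkl
      fun S hS => (h S hS).pl_MN hU)
    (fun U hU => kappa_four (fun i => (hπ i).continuous) (fun i => (hπ i).schur)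
      (fun i => (hπ i).dim) (isM_M hU) hij hik hil hjk hjl hkl
      fun S hS => (h S hS).pl_M hU)

/-- the orders for three and four factors -/
theorem orders (h : ∀ S : Finset ι, S.card ≤ 2 → TL x μ S)
    (hπ : ∀ i, IsIrreducible (π i)) {S : Finset ι}
    (hS : S.card = 3 ∨ (S.card = 4 ∧ ∀ i, ConnectedSpace (G i))) (hd : ∃ i ∈ S, 2 ≤ d i)
    {τ : ℝ} {Λ : ℂ → ℂ} (hΛ : IsContinuation π S x τ Λ) :
    meromorphicOrderAt Λ (1 + τ * Complex.I) = ((0 : ℤ) : WithTop ℤ) := by
  have hc := fun i => (hπ i).continuous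
  rcases hS with hS | ⟨hS, hconn⟩
  · obtain ⟨i, hi, hdi⟩ := hd
    have h1 : 1 < S.card := by omega
    obtain ⟨k, hk, hki⟩ := Finset.exists_mem_ne h1 i
    have h2 : (S.erase k).card ≤ 2 := by
      rw [Finset.card_erase_of_mem hk]
      omega
    exact order_zero hc (kappa_lt (μ := μ) (hc i) hdi)
      (fun U hU => kappa_gen hc (fun i => (hπ i).schur) (fun i => (hπ i).dim) hi hk
        hki.symm (isM_M hU) ((h _ h2).pl_M hU) ((h {i, k} Finset.card_le_two).pl_M hU))
      hΛ.1 hΛ.2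
  · obtain ⟨i₀, hi₀, hdi₀⟩ := hd
    obtain ⟨i, hi, hmax⟩ := Finset.exists_max_image S d ⟨i₀, hi₀⟩
    have hdi : 2 ≤ d i := hdi₀.trans (hmax i₀ hi₀)
    have h3 : (S.erase i).card = 3 := by
      rw [Finset.card_erase_of_mem hi]
      omega
    obtain ⟨j, k, l, hjk, hjl, hkl, hE⟩ := Finset.card_eq_three.1 h3
    have hmem : ∀ a ∈ ({j, k, l} : Finset ι), a ≠ i ∧ a ∈ S := by
      intro a ha
      rw [← hE] at ha
      exact Finset.mem_erase.1 ha
    have hj := hmem j (by simp)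
    have hk := hmem k (by simp)
    have hl := hmem l (by simp)
    have hSe : S = {i, j, k, l} := by
      rw [← Finset.insert_erase hi, hE]
    have := hconn k
    have hlt : Real.sqrt (1 - (∫ g, max (‖chi (π i) g‖ ^ 2 - Real.sqrt
        ((∫ g, ‖chi (π k) g‖ ^ 4 ∂μ k) * ∫ g, ‖chi (π l) g‖ ^ 4 ∂μ l)) 0 ∂μ i) ^ 2 / 4) < 1 := by
      have h4 := dist4_pos (μ := μ) (k := k) (l := l) hc (fun i => (hπ i).schur)
        (fun i => (hπ i).dim) hdi (hmax k hk.2) (hmax l hl.2)
      rw [Real.sqrt_lt' one_pos]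
      have h5 := pow_pos h4 2
      linarith
    subst hSe
    exact order_zero hc hlt
      (fun U hU => kappa_four hc (fun i => (hπ i).schur) (fun i => (hπ i).dim) (isM_M hU)
        hj.1.symm hk.1.symm hl.1.symm hjk hjl hkl fun S hS => (h S hS).pl_M hU)
      hΛ.1 hΛ.2

end Bridge

/-- **Products of abelian varieties from pairs.**  Let `K` be a number field,
let `G i` be compact groups (Hausdorff, second countable) with Haar probability measures `μ i` and
`x v i ∈ G i` for the primes `v` of `K`, such that any two of the sequences are jointly equidistributed.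

I. (Three and four factors.)  Let `π i` be irreducible representations of the `G i`.  For pairwise different
`i, j, k`, the averages of `|tr (π i) (x v i) tr (π j) (x v j) tr (π k) (x v k)|` and the numbers
`|log |L(1 + iτ + ε)|| / log (1/ε)`, with `L` the `L`-function of `π i ⊗ π j ⊗ π k`, have upper limits at most
`√(1 - D² / 4)` with `D = ∫ | |tr (π i)|² - 1 | dμ i`.  For four factors the same holds with
`D = ∫ (|tr (π i)|² - √(m k * m l))⁺ dμ i`, where `m k = ∫ |tr (π k)|⁴ dμ k`.  For three factors, and for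
four factors if the groups are connected, the `L`-function has neither a zero nor a pole at any point
`1 + iτ` to a neighbourhood of which it has a meromorphic continuation, unless all the `π i` are
one-dimensional.

II. (Any number of factors.)  Suppose that the `G i` have no nontrivial continuous homomorphisms to the
unit circle, and that for all finite sets `S` of at least three indices and all nontrivial irreducible
representations `π i`, `i ∈ S`, the `L`-function of `⊗_{i ∈ S} π i` has for every `τ` a meromorphic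
continuation to a neighbourhood of `1 + iτ`.  Then all finite subfamilies are jointly equidistributed.

III. (Almost all products.)  Suppose that all groups are the same group `G`.  For every continuous class
function `f` on `G^(n+1)` and every `δ > 0` there is a number `C` (depending only on `G`, `f` and `δ`, not on `K` and
the family), such that for every finite set `S` of indices and all large `N` there are at most `C |S|^n` tuples `t ∈ S^(n+1)` for which the average of
`f (x v (t 0), …, x v (t n))` over the primes `v` of norm at most `N` differs by more than `δ` from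
`∫ f`.  For irreducible representations `π a` of `G`, not all trivial, there are at most `(∏ (d a)²) |S|^n`
tuples `t ∈ S^(n+1)` without the following property: the `L`-function of `⊗ π a` at the `x v (t a)` has
neither a zero nor a pole at any point `1 + iτ` to a neighbourhood of which it has a meromorphic
continuation, and if there are such continuations for all `τ`, then the averages of
`∏ tr (π a) (x v (t a))` tend to `0`. -/
theorem result :
    (∀ (K : Type) [Field K] [NumberField K]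
      (ι : Type) [DecidableEq ι] (G : ι → Type) [∀ i, Group (G i)] [∀ i, TopologicalSpace (G i)]
      [∀ i, IsTopologicalGroup (G i)] [∀ i, CompactSpace (G i)] [∀ i, T2Space (G i)]
      [∀ i, SecondCountableTopology (G i)] [∀ i, MeasurableSpace (G i)] [∀ i, BorelSpace (G i)]
      (μ : ∀ i, Measure (G i)) [∀ i, IsProbabilityMeasure (μ i)] [∀ i, (μ i).IsHaarMeasure]
      (x : HeightOneSpectrum (𝓞 K) → ∀ i, G i),
      (∀ S : Finset ι, S.card ≤ 2 → Joint x μ S) →
      (∀ (d : ι → ℕ) (π : ∀ i, G i →* Matrix.unitaryGroup (Fin (d i)) ℂ),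
        (∀ i, IsIrreducible (π i)) →
        (∀ i j k, i ≠ j → i ≠ k → j ≠ k → Bounded π {i, j, k} x
          (Real.sqrt (1 - (∫ g, |‖tr (π i) g‖ ^ 2 - 1| ∂μ i) ^ 2 / 4))) ∧
        (∀ i j k l, i ≠ j → i ≠ k → i ≠ l → j ≠ k → j ≠ l → k ≠ l → Bounded π {i, j, k, l} x
          (Real.sqrt (1 - (∫ g, max (‖tr (π i) g‖ ^ 2 - Real.sqrt
            ((∫ g, ‖tr (π k) g‖ ^ 4 ∂μ k) * ∫ g, ‖tr (π l) g‖ ^ 4 ∂μ l)) 0 ∂μ i) ^ 2 / 4))) ∧
        ∀ S : Finset ι, (S.card = 3 ∨ (S.card = 4 ∧ ∀ i, ConnectedSpace (G i))) →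
          (∃ i ∈ S, 2 ≤ d i) → ∀ (τ : ℝ) (Λ : ℂ → ℂ), IsContinuation π S x τ Λ →
          meromorphicOrderAt Λ (1 + τ * Complex.I) = 0) ∧
      ((∀ i, ∀ χ : G i →* Matrix.unitaryGroup (Fin 1) ℂ, Continuous χ → ∀ g, χ g = 1) →
        (∀ S : Finset ι, 3 ≤ S.card → ∀ (d : ι → ℕ)
          (π : ∀ i, G i →* Matrix.unitaryGroup (Fin (d i)) ℂ),
          (∀ i ∈ S, IsIrreducible (π i) ∧ ∃ g, π i g ≠ 1) →
          ∀ τ : ℝ, ∃ Λ, IsContinuation π S x τ Λ) →
        ∀ S : Finset ι, Joint x μ S)) ∧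
    (∀ (G : Type) [Group G] [TopologicalSpace G] [IsTopologicalGroup G]
      [CompactSpace G] [T2Space G] [SecondCountableTopology G] [MeasurableSpace G] [BorelSpace G]
      (μ : Measure G) [IsProbabilityMeasure μ] [μ.IsHaarMeasure]
      (n : ℕ) (f : (Fin (n + 1) → G) → ℂ), Continuous f →
      (∀ g h, f (h * g * h⁻¹) = f g) → ∀ δ : ℝ, 0 < δ → ∃ C : ℕ,
      ∀ (K : Type) [Field K] [NumberField K] (ι : Type) (x : HeightOneSpectrum (𝓞 K) → ι → G),
      (∀ S : Finset ι, S.card ≤ 2 → Joint x (fun _ => μ) S) → ∀ S : Finset ι,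
          ∀ᶠ N : ℕ in atTop, {t : Fin (n + 1) → ι | (∀ a, t a ∈ S) ∧
            δ < ‖avg (fun v => f fun a => x v (t a)) N -
              ∫ g, f g ∂(Measure.pi fun _ => μ)‖}.ncard ≤ C * S.card ^ n) ∧
    (∀ (K : Type) [Field K] [NumberField K] (ι : Type) (G : Type) [Group G]
      [TopologicalSpace G] [IsTopologicalGroup G]
      [CompactSpace G] [T2Space G] [SecondCountableTopology G] [MeasurableSpace G] [BorelSpace G]
      (μ : Measure G) [IsProbabilityMeasure μ] [μ.IsHaarMeasure]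
      (x : HeightOneSpectrum (𝓞 K) → ι → G),
      (∀ S : Finset ι, S.card ≤ 2 → Joint x (fun _ => μ) S) →
      ∀ (n : ℕ) (d : Fin (n + 1) → ℕ) (π : ∀ a, G →* Matrix.unitaryGroup (Fin (d a)) ℂ),
        (∀ a, IsIrreducible (π a)) → (∃ a g, π a g ≠ 1) → ∀ S : Finset ι,
        {t : Fin (n + 1) → ι | (∀ a, t a ∈ S) ∧
          ¬ ((∀ (τ : ℝ) (Λ : ℂ → ℂ), IsContinuation π Finset.univ (fun v a => x v (t a)) τ Λ →
              meromorphicOrderAt Λ (1 + τ * Complex.I) = 0) ∧
            ((∀ τ : ℝ, ∃ Λ, IsContinuation π Finset.univ (fun v a => x v (t a)) τ Λ) →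
              Tendsto (avg fun v => ∏ a, tr (π a) (x v (t a))) atTop (𝓝 0)))}.ncard ≤
          (∏ a, d a ^ 2) * S.card ^ n) := by
  refine ⟨?_, ?_, ?_⟩
  · intro K _ _ ι _ G _ _ _ _ _ _ _ _ μ _ _ x hpair
    have hJ : ∀ S : Finset ι, S.card ≤ 2 → Pool.Agent.Hp428.ST.Jt x μ S :=
      fun S hS => joint_iff.1 (hpair S hS)
    have hTL : ∀ S : Finset ι, S.card ≤ 2 → Pool.Agent.Hp428.ST.TL x μ S :=
      fun S hS => (hJ S hS).tlc.tl
    refine ⟨fun d π hπ => ⟨fun i j k h1 h2 h3 => bounded_three hTL hπ h1 h2 h3,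
      fun i j k l h1 h2 h3 h4 h5 h6 => bounded_four hTL hπ h1 h2 h3 h4 h5 h6,
      fun S hS hd τ Λ hΛ => orders hTL hπ hS hd hΛ⟩, fun hG hcont S => ?_⟩
    refine joint_iff.2 (Pool.Agent.Hp428.ST.all_jt hG hJ (fun T hT d π hπ τ => ?_) S)
    exact hcont T hT d π (fun i hi => ⟨⟨(hπ i hi).1, (hπ i hi).2.1, fun h => by
      obtain ⟨g, hg⟩ := (hπ i hi).2.2
      refine hg (Subtype.ext ?_)
      ext a
      exact (Fin.elim0 (h ▸ a))⟩, (hπ i hi).2.2⟩) τ
  · intro G _ _ _ _ _ _ _ _ μ _ _ n f hf hcl δ hδ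
    classical
    obtain ⟨C, hC⟩ := Pool.Agent.Hp428.ST.tuple_all (μ := μ) hf hcl hδ
    refine ⟨C, fun K _ _ ι x hpair S => ?_⟩
    have hJ : ∀ S : Finset ι, S.card ≤ 2 → Pool.Agent.Hp428.ST.TLc x (fun _ => μ) S :=
      fun S hS => (joint_iff.1 (hpair S hS)).tlc
    filter_upwards [hC K ι x hJ S] with N hN
    rw [Fintype.card_fin, Nat.add_sub_cancel] at hN
    refine le_trans (le_of_eq ?_) hN
    rw [← Set.ncard_coe_finset]
    congr 1
    ext t
    simp only [avg_eq, Finset.coe_filter, Fintype.mem_piFinset, Set.mem_setOf_eq]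
  · intro K _ _ ι G _ _ _ _ _ _ _ _ μ _ _ x hpair n d π hπ hn S
    classical
    obtain ⟨a₀, hn⟩ := hn
    have hJ : ∀ S : Finset ι, S.card ≤ 2 → Pool.Agent.Hp428.ST.TLc x (fun _ => μ) S :=
      fun S hS => (joint_iff.1 (hpair S hS)).tlc
    have h1 := Pool.Agent.Hp428.ST.tuple_L hJ (fun a => (hπ a).continuous)
      (fun a => (hπ a).schur) hn S
    rw [Fintype.card_fin, Nat.add_sub_cancel] at h1
    have h2 : (∏ a : {a // a ≠ a₀}, d a ^ 2) ≤ ∏ a, d a ^ 2 := by
      rw [Fintype.prod_eq_mul_prod_subtype_ne (fun a => d a ^ 2) a₀]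
      exact Nat.le_mul_of_pos_left _ (pow_pos (Nat.pos_of_ne_zero (hπ a₀).dim) 2)
    refine le_trans ?_ (h1.trans (Nat.mul_le_mul_right _ h2))
    rw [← Set.ncard_coe_finset]
    refine Set.ncard_le_ncard ?_ (Finset.finite_toSet _)
    intro t ht
    rw [Finset.mem_coe, Finset.mem_filter, Fintype.mem_piFinset]
    refine ⟨ht.1, ?_⟩
    by_contra hcon
    have h3 : ∀ (τ : ℝ) (Λ : ℂ → ℂ), IsContinuation π Finset.univ (fun v a => x v (t a)) τ Λ →
        meromorphicOrderAt Λ (1 + τ * Complex.I) = 0 := by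
      intro τ Λ hΛ
      by_contra hne
      exact hcon ⟨τ, Λ, hΛ.1, hΛ.2, hne⟩
    refine ht.2 ⟨h3, fun h4 => ?_⟩
    rw [avg_eq]
    refine Pool.Agent.Hp428.ST.avg_T (π := π) (S := Finset.univ)
      (x := fun v a => x v (t a)) fun τ => ?_
    obtain ⟨Λ, hΛ⟩ := h4 τ
    exact ⟨Λ, hΛ.1, hΛ.2, h3 τ Λ hΛ⟩

end Pool.Agent.Results.MP_c481b3_nt.ProductsFromPairs
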