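import Pool.Agent.Helper644_ST.Strict

/-!
# Relations between the Sato-Tate discrepancies over several fields

Let `F_i` be number fields over `K` and `c_i` real numbers, and for `σ` in the absolute Galois group of
`K` let `Θ(σ) = ∑ c_i fix_i(σ)`, where `fix_i(σ)` is the number of the embeddings of `F_i` fixed by `σ`.
Let `disc_i` be the discrepancy of a class function with values between `0` and `1` over `F_i`.

* `|∑ c_i disc_i| ≤ E |Θ| + η` for all large `N`; the bound is `E |Θ| / 2 + η` if the `F_i` have the same
  Sato-Tate group as `K` and `∑ c_i = 0`.  In particular every relation `∑ c_i fix_i = 0` gives a relation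
  between the limits of the discrepancies.
* If the Sato-Tate law holds over `K`, then the bound is `E |Θ - E(Θ | Q)| / 2 + η`, where `Q` is the
  component group.  This is `0` if the `F_i` lie in the field which belongs to `Q`, and it is always less
  than the trivial bound `∑ c_i` if the `c_i` are not negative and not all zero.
-/

set_option autoImplicit false

namespace Pool.Agent.Results.MP_c481b3_nt.Relations

open NumberField Filter MeasureTheory Pool.Agent.Helper644_ST

/-- The absolute values of the terms of the sequence `X` are at most `b` up to any positive error for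
all large indices, that is, `limsup |X N| ≤ b`. -/
def LimsupAtMost (X : ℕ → ℝ) (b : ℝ) : Prop := ∀ η : ℝ, 0 < η → ∀ᶠ N in atTop, |X N| ≤ b + η

/-- The linear combination `∑ c_i disc_i` of the discrepancies of `f` over the fields `F i`. -/
noncomputable def comb {K : Type} [Field K] [NumberField K] {G : Type} [Group G]
    [TopologicalSpace G] [MeasurableSpace G] (D : Datum K G) (μ : Measure G) {ι : Type} [Fintype ι]
    (F : ι → Type) [∀ i, Field (F i)] [∀ i, NumberField (F i)] [∀ i, Algebra K (F i)] (c : ι → ℝ)
    (f : G → ℝ) (N : ℕ) : ℝ := ∑ i, c i * D.disc (F i) μ f N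

theorem result (K : Type) [Field K] [NumberField K] (G : Type) [Group G] [TopologicalSpace G]
    [IsTopologicalGroup G] [CompactSpace G] [MeasurableSpace G] [BorelSpace G] (μ : Measure G)
    [IsProbabilityMeasure μ] [μ.IsHaarMeasure] (D : Datum K G) (ι : Type) [Fintype ι]
    (F : ι → Type) [∀ i, Field (F i)] [∀ i, NumberField (F i)] [∀ i, Algebra K (F i)] (c : ι → ℝ) :
    (∀ f : G → ℝ, IsTest f →
      LimsupAtMost (comb D μ F c f) (meanAbs K F c) ∧
      ((∀ i, D.groupOver (F i) = ⊤) → ∑ i, c i = 0 →
        LimsupAtMost (comb D μ F c f) (meanAbs K F c / 2)) ∧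
      (D.SatoTate μ → LimsupAtMost (comb D μ F c f) (D.deviation F c / 2))) ∧
    ((∀ i, 0 ≤ c i) → 0 < ∑ i, c i → D.deviation F c < 2 * ∑ i, c i) ∧
    ((∀ i, D.r.ker ≤ Datum.galois K (F i)) → D.deviation F c = 0) := by
  refine ⟨fun f hf => ⟨fun η hη => relations μ D F c hf hη, fun h hc η hη => ?_,
    fun h η hη => ?_⟩, deviation_lt D F, deviation_eq_zero D F c⟩
  · have h1 := relations_half μ D F c h hc hf hη
    filter_upwards [h1] with N hN
    unfold comb
    linarith
  · have h1 := up μ D F c h hf hη
    filter_upwards [h1] with N hN
    unfold comb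
    linarith

end Pool.Agent.Results.MP_c481b3_nt.Relations
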